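import Pool.Agent.Y661.NU.Stm

/-!
Project NU (helper661, MP_37ff18_mp), job NU-SAT: strongest edges of finite cuts are satisfied in
every ground state.
-/

set_option autoImplicit false

namespace Pool.Agent.Y805.NU.SAT

open H974 Pool.Agent.Y661.NU

/-- The edge boundary of a set inside the box of radius `M` lies in the box of radius `M + 1`. -/
theorem cut_box {M : ℕ} {A : Finset Vtx} (hA : ∀ v ∈ A, v ∈ Bx M) {f : Edg} (hf : f ∈ cutE A) :
    f ∈ boxE (M + 1) := by
  obtain ⟨x, y, b⟩ := f
  have h : (x, y) ∈ Bx M ∨ tgt (x, y, b) ∈ Bx M := by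
    rcases hf with h | h
    · exact Or.inl (hA _ h.1)
    · exact Or.inr (hA _ h.2)
  cases b
  · have h' : (|x| ≤ (M : ℤ) ∧ |y| ≤ (M : ℤ)) ∨ (|x| ≤ (M : ℤ) ∧ |y + 1| ≤ (M : ℤ)) := by
      rcases h with h | h
      · exact Or.inl h
      · right
        simpa [tgt, Bx] using h
    unfold boxE
    rw [mem_RE_false]
    push_cast
    rcases h' with ⟨h1, h2⟩ | ⟨h1, h2⟩ <;> rw [abs_le] at h1 h2 <;> omega
  · have h' : (|x| ≤ (M : ℤ) ∧ |y| ≤ (M : ℤ)) ∨ (|x + 1| ≤ (M : ℤ) ∧ |y| ≤ (M : ℤ)) := by
      rcases h with h | h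
      · exact Or.inl h
      · right
        simpa [tgt, Bx] using h
    unfold boxE
    rw [mem_RE_true]
    push_cast
    rcases h' with ⟨h1, h2⟩ | ⟨h1, h2⟩ <;> rw [abs_le] at h1 h2 <;> omega

/-- A strongest edge of a finite cut is satisfied in a ground state. -/
theorem sat_edge {J : Edg → ℝ} {K : ℝ} {M : ℕ} (hK : ((boxE (M + 1)).card : ℝ) ≤ K)
    (hS : Sep J K M) {σ : Vtx → ℝ} (hσ : GSC J σ) {e : Edg}
    (he : Top (fun e => |J e|) M e) :
    J e * (σ (src e) * σ (tgt e)) = |J e| ∧ 0 < |J e| := by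
  obtain ⟨A, hA, heA, hmax⟩ := he
  have hne : A.Nonempty := by
    rcases heA with h | h
    · exact ⟨_, h.1⟩
    · exact ⟨_, h.2⟩
  have hfin : (cutE A).Finite :=
    (boxE (M + 1)).finite_toSet.subset fun f hf => cut_box hA hf
  have hpos := hσ.2 A hne
  set w : Edg → ℝ := fun f => J f * (σ (src f) * σ (tgt f)) with hw
  have hspin : ∀ v w' : Vtx, σ v * σ w' = 1 ∨ σ v * σ w' = -1 := by
    intro v w'
    rcases hσ.1 v with h | h <;> rcases hσ.1 w' with h' | h' <;> rw [h, h'] <;> norm_num
  have hwabs : ∀ f, |w f| = |J f| := by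
    intro f
    rw [hw]
    simp only
    rcases hspin (src f) (tgt f) with h | h <;> rw [h] <;> simp
  rw [finsum_mem_eq_finite_toFinset_sum _ hfin] at hpos
  set S := hfin.toFinset with hSdef
  have heS : e ∈ S := by rw [hSdef, Set.Finite.mem_toFinset]; exact heA
  have hSbox : S ⊆ boxE (M + 1) := by
    intro f hf
    rw [hSdef, Set.Finite.mem_toFinset] at hf
    exact cut_box hA hf
  have hebox := hSbox heS
  rw [← Finset.add_sum_erase S w heS] at hpos
  have hcard1 : 1 ≤ (boxE (M + 1)).card := Finset.card_pos.2 ⟨e, hebox⟩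
  have hK1 : (1 : ℝ) ≤ K := le_trans (by exact_mod_cast hcard1) hK
  have hlt : ∀ f ∈ S.erase e, K * |J f| < |J e| := by
    intro f hf
    rw [Finset.mem_erase] at hf
    have h1 : |J f| < |J e| := by
      have := hf.2
      rw [hSdef, Set.Finite.mem_toFinset] at this
      exact hmax f this hf.1
    rcases hS f (hSbox hf.2) e hebox hf.1 with h | h
    · exact h
    · exfalso
      have : |J e| ≤ K * |J e| := by nlinarith [abs_nonneg (J e)]
      linarith
  have hsum : |∑ f ∈ S.erase e, w f| ≤ ∑ f ∈ S.erase e, |J f| := by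
    refine (Finset.abs_sum_le_sum_abs _ _).trans (le_of_eq ?_)
    exact Finset.sum_congr rfl fun f _ => hwabs f
  have hepos : 0 < |J e| := by
    rcases (abs_nonneg (J e)).lt_or_eq with h | h
    · exact h
    · exfalso
      have hemp : S.erase e = ∅ := by
        rw [Finset.eq_empty_iff_forall_notMem]
        intro f hf
        have h1 := hlt f hf
        have h2 : 0 ≤ K * |J f| := by positivity
        linarith
      rw [hemp, Finset.sum_empty, add_zero] at hpos
      have h1 := hwabs e
      rw [← h] at h1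
      have h2 : w e = 0 := abs_eq_zero.1 h1
      linarith
  have hsmall : ∑ f ∈ S.erase e, |J f| < |J e| := by
    have h1 : K * ∑ f ∈ S.erase e, |J f| ≤ ((S.erase e).card : ℝ) * |J e| := by
      rw [Finset.mul_sum, ← nsmul_eq_mul, ← Finset.sum_const]
      exact Finset.sum_le_sum fun f hf => (hlt f hf).le
    have h2 : ((S.erase e).card : ℝ) + 1 ≤ K := by
      have h3 : (S.erase e).card + 1 = S.card := Finset.card_erase_add_one heS
      have h4 : S.card ≤ (boxE (M + 1)).card := Finset.card_le_card hSbox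
      have h5 : ((S.erase e).card : ℝ) + 1 ≤ ((boxE (M + 1)).card : ℝ) := by
        exact_mod_cast h3.trans_le h4
      linarith
    by_contra hcon
    rw [not_lt] at hcon
    nlinarith
  refine ⟨?_, hepos⟩
  have h6 := (abs_le.1 (le_refl |∑ f ∈ S.erase e, w f|)).2
  rcases hspin (src e) (tgt e) with h | h
  · have h7 : w e = J e := by rw [hw]; simp only; rw [h, mul_one]
    have h8 : 0 < J e := by
      by_contra hcon
      rw [not_lt] at hcon
      rw [abs_of_nonpos hcon] at hsmall
      rw [h7] at hpos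
      linarith
    show w e = |J e|
    rw [h7, abs_of_pos h8]
  · have h7 : w e = - J e := by rw [hw]; simp only; rw [h]; ring
    have h8 : J e < 0 := by
      by_contra hcon
      rw [not_lt] at hcon
      rw [abs_of_nonneg hcon] at hsmall
      rw [h7] at hpos
      linarith
    show w e = |J e|
    rw [h7, abs_of_neg h8]

theorem main : Pool.Agent.Y661.NU.S_SAT := by
  intro J K M hK hS σ τ hσ hτ u v hr
  have hsq : ∀ ρ : Vtx → ℝ, GSC J ρ → ∀ v, ρ v * ρ v = 1 := by
    intro ρ hρ v
    rcases hρ.1 v with h | h <;> rw [h] <;> norm_num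
  have hedge : ∀ e, Top (fun e => |J e|) M e →
      σ (src e) * σ (tgt e) = τ (src e) * τ (tgt e) := by
    intro e he
    obtain ⟨h1, h2⟩ := sat_edge hK hS hσ he
    obtain ⟨h3, -⟩ := sat_edge hK hS hτ he
    have hJ : J e ≠ 0 := abs_pos.1 h2
    exact mul_left_cancel₀ hJ (h1.trans h3.symm)
  have hstep : ∀ x y, Adj {e | Top (fun e => |J e|) M e} x y → σ x * σ y = τ x * τ y := by
    rintro x y ⟨e, he, h | h⟩
    · rw [← h.1, ← h.2]; exact hedge e he
    · rw [← h.1, ← h.2, mul_comm (σ _), mul_comm (τ _)]; exact hedge e he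
  unfold Reach at hr
  induction hr with
  | refl => rw [hsq σ hσ, hsq τ hτ]
  | @tail b c _ hbc ih =>
    have h1 := hstep b c hbc
    calc σ u * σ c = (σ u * σ b) * (σ b * σ c) := by
          have := hsq σ hσ b
          linear_combination (- σ u * σ c) * this
      _ = (τ u * τ b) * (τ b * τ c) := by rw [ih, h1]
      _ = τ u * τ c := by
          have := hsq τ hτ b
          linear_combination (τ u * τ c) * this

end Pool.Agent.Y805.NU.SAT
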